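import Pool.Agent.H899.LG.Facet

/-! Passage to the boundary of the effective movable cone, for a subgroup. -/

set_option autoImplicit false
set_option linter.overlappingInstances false
set_option linter.unusedSectionVars false
set_option linter.unusedVariables false

open FF Module Pool.Agent.K1H17.MC

namespace Pool.Agent.H899.LG

section

variable {k K : Type} [Field k] [Field K] [Algebra k K] {P : Set (Place k K)}

/-- The translates by a subgroup of rational polyhedral cones which cover the interior cover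
everything. -/
theorem cover_of_inn' (hample : HasAmple P) (hbase : HasBase P) (G : Subgroup (psAut P))
    {κ : Type} [Finite κ]
    {Q : κ → Set (N1 P)} (hQ : ∀ i, RP (lat P) (Q i)) (hQM : ∀ i, Q i ⊆ clo (Mov P))
    (hcov : ∀ x ∈ inn (MovE P), ∃ γ : G, ∃ i, ∃ y ∈ Q i, x = (rho P).comp G.subtype γ y) :
    ∀ x ∈ MovE P, ∃ γ : G, ∃ i, ∃ y ∈ Q i, x = (rho P).comp G.subtype γ y := by
  classical
  obtain ⟨n, b, ξ, hb, hbz, hξE, hξ0, hdat⟩ := exists_datE hample hbase
  obtain ⟨H, hH⟩ := hample
  intro x hx
  obtain ⟨w, ⟨l, u, hu, a, ha, hw⟩, hwx⟩ := id hx.2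
  let J := {i : Fin l // 0 < a i}
  choose D hD hDr using hu
  have hsum : x = ∑ j : J, a j • cls P (rl P (D j)) := by
    rw [← hwx, hw, map_sum]
    simp only [map_smul]
    have h1 : ∑ i, a i • cls P (u i) =
        ∑ i ∈ Finset.univ.filter (fun i => 0 < a i), a i • cls P (u i) := by
      rw [Finset.sum_filter_of_ne]
      intro i _ hi
      refine lt_of_le_of_ne (ha i) fun h0 => hi ?_
      rw [← h0, zero_smul]
    rw [h1, Finset.sum_subtype (Finset.univ.filter fun i => 0 < a i) (p := fun i => 0 < a i)
      (fun i => by simp)]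
    exact Finset.sum_congr rfl fun j _ => by rw [hDr]
  have hDE : ∀ i, cls P (rl P (D i)) ∈ Eff P := fun i => ⟨_, cg_gen ⟨D i, hD i, rfl⟩, rfl⟩
  have hHi := ample_inn hH
  choose γ i y hy hxy using fun N : ℕ => hcov (x + (1 / ((N : ℝ) + 1)) • cls P (rl P H)) (by
    rw [add_comm]
    exact inn_add MovE_cone (inn_smul MovE_cone hHi (by positivity)) hx)
  obtain ⟨c, hc⟩ := Finite.exists_infinite_fiber i
  obtain ⟨nQ, t, ht, hQt⟩ := hQ c
  obtain ⟨g, q, hq, h⟩ := bigcov (J := J) (Dat.restrict (dat_clo hdat) G)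
    (fun γ x => rho_Eff (γ : psAut P)) hξ0 (fin_deg b hbz hξE) ht
    (fun l => hQM c (by rw [hQt]; exact gen_mem t l)) (D := fun j => cls P (rl P (D j)))
    (fun j => cls_rl_mem _)
    (fun j => hDE _) (a := fun j => a j) (fun j => j.2) (cls_rl_mem H) (inn_sub hHi).2 (by
      intro δ hδ
      obtain ⟨N, hN⟩ : ∃ N : i ⁻¹' {c}, 1 / (((N : ℕ) : ℝ) + 1) < δ := by
        obtain ⟨N0, hN0'⟩ := exists_nat_gt (1 / δ)
        by_contra hcon
        push Not at hcon
        have hle : ∀ N : i ⁻¹' {c}, (N : ℕ) ∈ Set.Iic N0 := by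
          intro N
          rw [Set.mem_Iic]
          by_contra h1
          push Not at h1
          have h2 := hcon N
          have h3 : (N0 : ℝ) < (N : ℕ) := by exact_mod_cast h1
          have h4 : 1 / δ < ((N : ℕ) : ℝ) + 1 := by linarith
          have h5 : 1 / (((N : ℕ) : ℝ) + 1) < δ := by
            rw [div_lt_iff₀ (by positivity)]
            rw [div_lt_iff₀ hδ] at h4
            linarith
          linarith
        have h6 : Finite (i ⁻¹' {c}) := by
          refine Finite.of_injective (fun N : i ⁻¹' {c} => (⟨_, hle N⟩ : Set.Iic N0)) ?_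
          intro x y h
          exact Subtype.ext (Subtype.mk.inj h)
        exact not_finite_iff_infinite.2 hc h6
      refine ⟨_, by positivity, hN, γ N, y N, ?_, ?_⟩
      · have h1 := hy N
        have h2 : i N = c := N.2
        rw [h2, hQt] at h1
        exact h1
      · rw [← hsum]
        exact hxy N)
  exact ⟨g, c, q, by rw [hQt]; exact hq, by rw [hsum]; exact h⟩

end

end Pool.Agent.H899.LG
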