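import Pool.Agent.H899.LG.Glob

/-! The facets of a rational polyhedral cone, and generic segments. -/

set_option autoImplicit false
set_option linter.overlappingInstances false
set_option linter.unusedSectionVars false
set_option linter.unusedVariables false

open Module Pool.Agent.K1H17.MC

namespace Pool.Agent.H899.LG

section

variable {V : Type*} [AddCommGroup V] [Module ℝ V]

/-- A vector which avoids finitely many proper subspaces. -/
theorem avoid {ι : Type*} [Finite ι] (L : ι → Submodule ℝ V) (hL : ∀ i, L i ≠ ⊤) :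
    ∃ v : V, ∀ i, v ∉ L i := by
  by_contra hcon
  push Not at hcon
  obtain ⟨i, hi⟩ := Subspace.exists_eq_top_of_iUnion_eq_univ (p := L) (by
    rw [Set.eq_univ_iff_forall]
    intro v
    obtain ⟨i, hi⟩ := hcon v
    exact Set.mem_iUnion.2 ⟨i, hi⟩)
  exact hL i hi

/-- Points near `z` in a generic direction avoid finitely many proper subspaces. -/
theorem avoid_near {ι : Type*} [Finite ι] (L : ι → Submodule ℝ V) {v : V} (hv : ∀ i, v ∉ L i)
    (z : V) {δ : ℝ} (hδ : 0 < δ) : ∃ s : ℝ, 0 < s ∧ s < δ ∧ ∀ i, z + s • v ∉ L i := by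
  classical
  have h1 : (⋃ i, {s : ℝ | z + s • v ∈ L i}).Finite := by
    refine Set.finite_iUnion fun i => ?_
    refine Set.Subsingleton.finite ?_
    intro s hs s' hs'
    by_contra hne
    refine hv i ?_
    have h2 : (s - s') • v ∈ L i := by
      have h3 := (L i).sub_mem hs hs'
      have h4 : z + s • v - (z + s' • v) = (s - s') • v := by rw [sub_smul]; abel
      rwa [h4] at h3
    have h5 := (L i).smul_mem (s - s')⁻¹ h2
    rwa [smul_smul, inv_mul_cancel₀ (sub_ne_zero.2 hne), one_smul] at h5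
  obtain ⟨s, ⟨hs0, hs1⟩, hs2⟩ := ((Set.Ioo_infinite hδ).sdiff h1).nonempty
  refine ⟨s, hs0, hs1, fun i hi => hs2 (Set.mem_iUnion.2 ⟨i, hi⟩)⟩

/-- The relative interior of the cone over the `t j`, `j ∈ J`. -/
theorem relint {m : ℕ} {t : Fin m → V} {J : Finset (Fin m)} {a : Fin m → ℝ}
    (ha : ∀ j ∈ J, 0 < a j) {w : V} (hw : w ∈ Submodule.span ℝ (t '' J)) :
    ∃ ε : ℝ, 0 < ε ∧ ∀ s : ℝ, 0 ≤ s → s ≤ ε → ∀ K : Set V, IsCone K → (∀ j ∈ J, t j ∈ K) →
      ∑ j ∈ J, a j • t j + s • w ∈ K := by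
  classical
  rw [Submodule.mem_span_image_finset_iff_exists_fun'] at hw
  obtain ⟨c, rfl⟩ := hw
  obtain ⟨δ, hδ, hδa⟩ : ∃ δ : ℝ, 0 < δ ∧ ∀ j ∈ J, δ ≤ a j := by
    by_cases hne : J.Nonempty
    · obtain ⟨j0, hj0, hmin⟩ := J.exists_min_image a hne
      exact ⟨a j0, ha j0 hj0, hmin⟩
    · rw [Finset.not_nonempty_iff_eq_empty] at hne
      exact ⟨1, one_pos, fun j hj => by rw [hne] at hj; exact absurd hj (Finset.notMem_empty _)⟩
  have hB : 0 < 1 + ∑ j ∈ J, |c j| := by
    have := Finset.sum_nonneg fun j (_ : j ∈ J) => abs_nonneg (c j)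
    linarith
  refine ⟨δ / (1 + ∑ j ∈ J, |c j|), div_pos hδ hB, fun s hs0 hs1 K hK hJ => ?_⟩
  rw [Finset.smul_sum, ← Finset.sum_add_distrib]
  refine hK.sum _ _ fun j hj => ?_
  rw [smul_smul, ← add_smul]
  refine hK.smul _ ?_ _ (hJ j hj)
  rw [le_div_iff₀ hB] at hs1
  have h1 : |c j| ≤ ∑ j ∈ J, |c j| := Finset.single_le_sum (fun j _ => abs_nonneg (c j)) hj
  have h2 : s * |c j| ≤ s * (1 + ∑ j ∈ J, |c j|) := mul_le_mul_of_nonneg_left (by linarith) hs0
  have h3 : -(s * |c j|) ≤ s * c j := by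
    have := mul_le_mul_of_nonneg_left (neg_abs_le (c j)) hs0
    linarith
  have := hδa j hj
  linarith

/-- A representation with the maximal support. -/
theorem maxsupp {m : ℕ} {t : Fin m → V} {y : V} (hy : y ∈ cn t) :
    ∃ (J : Finset (Fin m)) (a : Fin m → ℝ), (∀ j ∈ J, 0 < a j) ∧ y = ∑ j ∈ J, a j • t j ∧
      ∀ j, (∃ ε : ℝ, 0 < ε ∧ y - ε • t j ∈ cn t) → j ∈ J := by
  classical
  let R : Finset (Fin m) → Prop := fun J => ∃ a : Fin m → ℝ, (∀ j ∈ J, 0 < a j) ∧
    (∀ j, j ∉ J → a j = 0) ∧ y = ∑ j, a j • t j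
  have hne : (Finset.univ.filter R).Nonempty := by
    obtain ⟨a, ha, hya⟩ := hy
    refine ⟨Finset.univ.filter fun j => 0 < a j, Finset.mem_filter.2 ⟨Finset.mem_univ _, a,
      fun j hj => (Finset.mem_filter.1 hj).2, fun j hj => ?_, hya⟩⟩
    rw [Finset.mem_filter] at hj
    push Not at hj
    exact le_antisymm (hj (Finset.mem_univ _)) (ha j)
  obtain ⟨J, hJ, hmax⟩ := (Finset.univ.filter R).exists_max_image Finset.card hne
  obtain ⟨-, a, ha, ha0, hya⟩ := Finset.mem_filter.1 hJ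
  have hann : ∀ i, 0 ≤ a i := fun i => by
    by_cases hi : i ∈ J
    · exact (ha i hi).le
    · rw [ha0 i hi]
  refine ⟨J, a, ha, ?_, ?_⟩
  · rw [hya]
    refine (Finset.sum_subset (Finset.subset_univ J) fun j _ hj => ?_).symm
    rw [ha0 j hj, zero_smul]
  · rintro j ⟨ε, hε, a', ha', hj⟩
    by_contra hjJ
    -- the average of the two representations
    let c : Fin m → ℝ := fun i => (a i + (a' i + if i = j then ε else 0)) / 2
    have hc0 : ∀ i, 0 ≤ c i := by
      intro i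
      have h2 : (0 : ℝ) ≤ if i = j then ε else 0 := by
        split_ifs
        · exact hε.le
        · exact le_rfl
      have h1 := hann i
      have h3 := ha' i
      change 0 ≤ (a i + (a' i + if i = j then ε else 0)) / 2
      linarith
    have hcy : y = ∑ i, c i • t i := by
      have h1 : y = ∑ i, (a' i + if i = j then ε else 0) • t i := by
        have h2 : y = (y - ε • t j) + ε • t j := by abel
        rw [h2, hj]
        simp only [add_smul, Finset.sum_add_distrib, ite_smul, zero_smul, Finset.sum_ite_eq',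
          Finset.mem_univ, if_true]
      have h2 : ∑ i, c i • t i = (2⁻¹ : ℝ) • (∑ i, a i • t i +
          ∑ i, (a' i + if i = j then ε else 0) • t i) := by
        rw [← Finset.sum_add_distrib, Finset.smul_sum]
        refine Finset.sum_congr rfl fun i _ => ?_
        rw [← add_smul, smul_smul]
        congr 1
        change (a i + (a' i + if i = j then ε else 0)) / 2 = _
        ring
      rw [h2, ← hya, ← h1, ← two_smul ℝ y, smul_smul]
      norm_num
    have hcard := hmax (Finset.univ.filter fun i => 0 < c i) (Finset.mem_filter.2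
      ⟨Finset.mem_univ _, c, fun i hi => (Finset.mem_filter.1 hi).2, fun i hi => by
        rw [Finset.mem_filter] at hi
        push Not at hi
        exact le_antisymm (hi (Finset.mem_univ _)) (hc0 i), hcy⟩)
    have hsub : insert j J ⊆ Finset.univ.filter fun i => 0 < c i := by
      intro i hi
      rw [Finset.mem_filter]
      refine ⟨Finset.mem_univ _, ?_⟩
      change 0 < (a i + (a' i + if i = j then ε else 0)) / 2
      have h2 : (0 : ℝ) ≤ if i = j then ε else 0 := by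
        split_ifs
        · exact hε.le
        · exact le_rfl
      have h3 := ha' i
      have h4 := hann i
      rcases Finset.mem_insert.1 hi with h1 | h1
      · rw [if_pos h1]
        linarith
      · have h5 := ha i h1
        linarith
    have h1 := Finset.card_le_card hsub
    rw [Finset.card_insert_of_notMem hjJ] at h1
    omega

/-- A point of a cone is an interior point, or a relative interior point of a facet, or lies on a
face of codimension at least two. -/
theorem facet_cases {n : ℕ} (b : Basis (Fin n) ℝ V) {m : ℕ} {t : Fin m → V} {y : V}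
    {J : Finset (Fin m)} {a : Fin m → ℝ} (ha : ∀ j ∈ J, 0 < a j) (hya : y = ∑ j ∈ J, a j • t j)
    (hmax : ∀ j, (∃ ε : ℝ, 0 < ε ∧ y - ε • t j ∈ cn t) → j ∈ J)
    (hdim : n ≤ finrank ℝ (Submodule.span ℝ (t '' J)) + 1)
    (htop : Submodule.span ℝ (t '' J) ≠ ⊤) :
    ∃ ℓ : V →ₗ[ℝ] ℝ, (∀ j, 0 ≤ ℓ (t j)) ∧ ℓ ≠ 0 ∧ (∀ j, ℓ (t j) = 0 ↔ j ∈ J) ∧
      LinearMap.ker ℓ = Submodule.span ℝ (t '' J) := by
  classical
  have hfin : FiniteDimensional ℝ V := b.finiteDimensional_of_finite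
  have hn : finrank ℝ V = n := by rw [finrank_eq_card_basis b, Fintype.card_fin]
  obtain ⟨ℓ, hℓ, hker⟩ := Submodule.exists_le_ker_of_lt_top _ (lt_top_iff_ne_top.2 htop)
  have hkerne : LinearMap.ker ℓ ≠ ⊤ := fun h => hℓ (LinearMap.ker_eq_top.1 h)
  have hlt := Submodule.finrank_lt hkerne
  have hker' : Submodule.span ℝ (t '' J) = LinearMap.ker ℓ :=
    Submodule.eq_of_le_of_finrank_le hker (by omega)
  have hmemJ : ∀ j, ℓ (t j) = 0 → j ∈ J := by
    intro j hj
    have h1 : -(t j) ∈ Submodule.span ℝ (t '' J) := by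
      rw [hker', LinearMap.mem_ker, map_neg, hj, neg_zero]
    obtain ⟨ε, hε, h2⟩ := relint ha h1
    refine hmax j ⟨ε, hε, ?_⟩
    have h3 := h2 ε hε.le le_rfl (cn t) (cn_cone t) fun j _ => gen_mem t j
    rwa [← hya, smul_neg, ← sub_eq_add_neg] at h3
  have hJmem : ∀ j ∈ J, ℓ (t j) = 0 := fun j hj => by
    have h1 : t j ∈ Submodule.span ℝ (t '' J) := Submodule.subset_span ⟨j, hj, rfl⟩
    rw [hker'] at h1
    exact h1
  -- the signs
  have hsign : ∀ i j, 0 < ℓ (t i) → ℓ (t j) < 0 → False := by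
    intro i j hi hj
    have h1 : -(ℓ (t i) • t j - ℓ (t j) • t i) ∈ Submodule.span ℝ (t '' J) := by
      rw [hker', LinearMap.mem_ker, map_neg, map_sub, map_smul, map_smul, smul_eq_mul,
        smul_eq_mul]
      ring
    obtain ⟨ε, hε, h2⟩ := relint ha h1
    have h3 := h2 ε hε.le le_rfl (cn t) (cn_cone t) fun j _ => gen_mem t j
    rw [← hya] at h3
    have h4 : i ∈ J := by
      refine hmax i ⟨ε * (-ℓ (t j)), mul_pos hε (by linarith), ?_⟩
      have h5 : y - (ε * (-ℓ (t j))) • t i = (y + ε • -(ℓ (t i) • t j - ℓ (t j) • t i)) +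
          (ε * ℓ (t i)) • t j := by
        rw [smul_neg, smul_sub, smul_smul, smul_smul, mul_neg, neg_smul]
        abel
      rw [h5]
      exact (cn_cone t).add _ h3 _ ((cn_cone t).smul _ (by positivity) _ (gen_mem t j))
    have := hJmem i h4
    linarith
  by_cases hpos : ∀ j, 0 ≤ ℓ (t j)
  · exact ⟨ℓ, hpos, hℓ, fun j => ⟨hmemJ j, hJmem j⟩, hker'.symm⟩
  · push Not at hpos
    obtain ⟨j0, hj0⟩ := hpos
    refine ⟨-ℓ, fun j => ?_, neg_ne_zero.2 hℓ, fun j => ?_, ?_⟩
    · rw [LinearMap.neg_apply, neg_nonneg]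
      by_contra hcon
      push Not at hcon
      exact hsign j j0 hcon hj0
    · rw [LinearMap.neg_apply, neg_eq_zero]
      exact ⟨hmemJ j, hJmem j⟩
    · rw [hker']
      ext x
      rw [LinearMap.mem_ker, LinearMap.mem_ker, LinearMap.neg_apply, neg_eq_zero]

end

section

variable {V : Type*} [AddCommGroup V] [Module ℝ V] {Γ : Type*} [Group Γ]
  {Λ : AddSubgroup V} {C : Set V} {ρ : Γ →* Module.End ℝ V} {ξ : V →ₗ[ℝ] ℝ}

/-- The union of the translates, along a segment. -/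
theorem loc_seg (h : Dat Λ C ρ ξ) {n : ℕ} (b : Basis (Fin n) ℝ V) (hb : ∀ i, b i ∈ Λ)
    {κ : Type*} [Finite κ] {m : κ → ℕ} {t : ∀ i, Fin (m i) → V} (ht : ∀ i j, t i j ∈ Λ)
    (htC : ∀ i j, t i j ∈ C) {x0 z : V} (hx0 : x0 ∈ inn C) (hz : z ∈ inn C)
    (hx0c : ∃ γ i, ∃ y ∈ cn (t i), x0 = ρ γ y)
    (hloc : ∀ r : ℝ, 0 ≤ r → r < 1 → (∃ γ i, ∃ y ∈ cn (t i), x0 + r • (z - x0) = ρ γ y) →
      ∃ ε : ℝ, 0 < ε ∧
      ∀ s : ℝ, 0 ≤ s → s ≤ ε → ∃ γ i, ∃ y ∈ cn (t i), x0 + r • (z - x0) + s • (z - x0) = ρ γ y) :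
    ∃ γ i, ∃ y ∈ cn (t i), z = ρ γ y := by
  classical
  obtain ⟨S, hSdef⟩ : ∃ S : Set ℝ, S = {s : ℝ | ∃ γ i, ∃ y ∈ cn (t i),
    x0 + s • (z - x0) = ρ γ y} := ⟨_, rfl⟩
  have hseg : ∀ s ∈ Set.Icc (0 : ℝ) 1, x0 + s • (z - x0) ∈ inn C := by
    rintro s ⟨hs0, hs1⟩
    rcases hs1.eq_or_lt with h1 | h1
    · rw [h1, one_smul, add_sub_cancel]
      exact hz
    · have h2 : x0 + s • (z - x0) = (1 - s) • x0 + s • z := by
        rw [smul_sub, sub_smul, one_smul]; abel
      rw [h2]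
      exact inn_add h.cone (inn_smul h.cone hx0 (by linarith)) (h.cone.smul _ hs0 _ (inn_sub hz))
  have hcl : ∀ s ∈ Set.Icc (0 : ℝ) 1, (∀ δ : ℝ, 0 < δ → ∃ s' ∈ S, |s' - s| < δ) → s ∈ S := by
    intro s hs hδ
    by_contra hns
    have h1 : (∀ δ : ℝ, 0 < δ → ∃ s' : ℝ, 0 < s' ∧ s' < δ ∧ s + s' ∈ S) ∨
        (∀ δ : ℝ, 0 < δ → ∃ s' : ℝ, 0 < s' ∧ s' < δ ∧ s - s' ∈ S) := by
      by_contra hcon
      push Not at hcon
      obtain ⟨⟨δ1, h1, h2⟩, ⟨δ2, h3, h4⟩⟩ := hcon
      obtain ⟨s', hs', hlt⟩ := hδ (min δ1 δ2) (lt_min h1 h3)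
      rcases lt_trichotomy s' s with h5 | h5 | h5
      · refine h4 (s - s') (by linarith) ?_ (by rwa [sub_sub_cancel])
        have h6 := hlt.trans_le (min_le_right δ1 δ2)
        rw [abs_sub_comm, abs_of_pos (by linarith)] at h6
        exact h6
      · exact hns (h5 ▸ hs')
      · refine h2 (s' - s) (by linarith) ?_ (by rwa [add_sub_cancel])
        have h6 := hlt.trans_le (min_le_left δ1 δ2)
        rw [abs_of_pos (by linarith)] at h6
        exact h6
    apply hns
    rcases h1 with h1 | h1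
    · obtain ⟨γ, i, h2, -⟩ := closed_cov h b hb ht htC (w := z - x0) (hseg s hs) fun δ hδ => by
        obtain ⟨s', h3, h4, h5⟩ := h1 δ hδ
        refine ⟨s', h3, h4, ?_⟩
        rw [hSdef] at h5
        have h6 : x0 + s • (z - x0) + s' • (z - x0) = x0 + (s + s') • (z - x0) := by
          rw [add_smul]; abel
        rw [h6]
        exact h5
      rw [hSdef]
      exact ⟨γ, i, h2⟩
    · obtain ⟨γ, i, h2, -⟩ := closed_cov h b hb ht htC (w := -(z - x0)) (hseg s hs) fun δ hδ => by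
        obtain ⟨s', h3, h4, h5⟩ := h1 δ hδ
        refine ⟨s', h3, h4, ?_⟩
        rw [hSdef] at h5
        have h6 : x0 + s • (z - x0) + s' • -(z - x0) = x0 + (s - s') • (z - x0) := by
          rw [sub_smul, smul_neg]; abel
        rw [h6]
        exact h5
      rw [hSdef]
      exact ⟨γ, i, h2⟩
  have h01 : Set.Icc (0 : ℝ) 1 ⊆ S := by
    refine IsClosed.Icc_subset_of_forall_exists_gt ?_ ?_ ?_
    · refine isClosed_of_closure_subset fun s hs => ?_
      have hsI : s ∈ Set.Icc (0 : ℝ) 1 :=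
        isClosed_Icc.closure_subset (closure_mono Set.inter_subset_right hs)
      refine ⟨hcl s hsI fun δ hδ => ?_, hsI⟩
      obtain ⟨s', hs', hd⟩ := Metric.mem_closure_iff.1 hs δ hδ
      refine ⟨s', hs'.1, ?_⟩
      rw [Real.dist_eq, abs_sub_comm] at hd
      exact hd
    · rw [hSdef]
      obtain ⟨γ, i, y, hy, hxy⟩ := hx0c
      exact ⟨γ, i, y, hy, by rw [zero_smul, add_zero]; exact hxy⟩
    · rintro s ⟨hs, hs0, hs1⟩ y hy
      rw [hSdef] at hs
      obtain ⟨ε, hε, h1⟩ := hloc s hs0 hs1 hs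
      have hy' : s < y := hy
      refine ⟨s + min ε (y - s), ?_, ?_, ?_⟩
      · rw [hSdef]
        have h2 := h1 (min ε (y - s)) (le_min hε.le (by linarith)) (min_le_left _ _)
        have h6 : x0 + s • (z - x0) + min ε (y - s) • (z - x0) =
            x0 + (s + min ε (y - s)) • (z - x0) := by
          rw [add_smul]; abel
        rw [h6] at h2
        exact h2
      · have := lt_min hε (show 0 < y - s by linarith)
        linarith
      · have := min_le_right ε (y - s)
        linarith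
  have h1 := h01 ⟨zero_le_one, le_rfl⟩
  rw [hSdef] at h1
  obtain ⟨γ, i, y, hy, h2⟩ := h1
  exact ⟨γ, i, y, hy, by rw [← h2, one_smul, add_sub_cancel]⟩

/-- **Wall crossing.** If behind every facet which meets the interior there is a translate of one of
the cones which contains the facet, then the translates cover the interior. -/
theorem wall_crossing (h : Dat Λ C ρ ξ) {n : ℕ} (b : Basis (Fin n) ℝ V) (hb : ∀ i, b i ∈ Λ)
    {κ : Type*} [Finite κ] [Nonempty κ] {m : κ → ℕ} {t : ∀ i, Fin (m i) → V}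
    (ht : ∀ i j, t i j ∈ Λ) (htC : ∀ i j, t i j ∈ C)
    (hfull : ∀ i, Submodule.span ℝ (Set.range (t i)) = ⊤)
    (hfacet : ∀ i (ℓ : V →ₗ[ℝ] ℝ), ℓ ≠ 0 → (∀ j, 0 ≤ ℓ (t i j)) →
      LinearMap.ker ℓ ≤ Submodule.span ℝ {x | ∃ j, ℓ (t i j) = 0 ∧ x = t i j} →
      (∃ x ∈ cn (t i), ℓ x = 0 ∧ x ∈ inn C) → ∃ γ i', (∀ j, ℓ (t i j) = 0 →
        t i j ∈ ρ γ '' cn (t i')) ∧ ∃ y ∈ ρ γ '' cn (t i'), ℓ y < 0) :
    ∀ z ∈ inn C, ∃ γ i, ∃ y ∈ cn (t i), z = ρ γ y := by
  classical
  intro z hz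
  have hfin : FiniteDimensional ℝ V := b.finiteDimensional_of_finite
  have hn : finrank ℝ V = n := by rw [finrank_eq_card_basis b, Fintype.card_fin]
  have hspan : ∀ x, x ∈ Submodule.span ℝ (Set.range b) := fun x => by
    rw [b.span_eq]; trivial
  have hone : ∀ x, ρ 1 x = x := fun x => by rw [map_one]; rfl
  -- an interior point of the first cone
  obtain ⟨i0⟩ := ‹Nonempty κ›
  obtain ⟨x0, hx0def⟩ : ∃ x0 : V, x0 = ∑ j, t i0 j := ⟨_, rfl⟩
  have hintr : ∀ (i : κ) (J : Finset (Fin (m i))) (a : Fin (m i) → ℝ), (∀ j ∈ J, 0 < a j) →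
      Submodule.span ℝ (t i '' J) = ⊤ → ∑ j ∈ J, a j • t i j ∈ inn (cn (t i)) := by
    intro i J a ha htop w
    obtain ⟨ε, hε, h1⟩ := relint ha (w := w) (by rw [htop]; trivial)
    exact ⟨ε, hε, h1 ε hε.le le_rfl _ (cn_cone _) fun j _ => gen_mem _ j⟩
  have hx0i : x0 ∈ inn (cn (t i0)) := by
    have h1 := hintr i0 Finset.univ (fun _ => 1) (fun _ _ => one_pos) (by
      rw [Finset.coe_univ, Set.image_univ]
      exact hfull i0)
    simp only [one_smul] at h1
    rwa [hx0def]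
  have hx0C : x0 ∈ inn C := fun v => by
    obtain ⟨ε, hε, h1⟩ := hx0i v
    exact ⟨ε, hε, cn_sub h.cone (htC i0) h1⟩
  -- a rational polyhedral cone which contains the segments
  obtain ⟨m0, u0, hu0, hu0C, hzu⟩ := exists_nhd h.cone b hb hz
  let u : Fin (m0 + 1) → V := Fin.cons x0 u0
  have hu : ∀ i, u i ∈ Λ := by
    intro i
    refine Fin.cases ?_ (fun j => ?_) i
    · change x0 ∈ Λ
      rw [hx0def]
      exact Λ.sum_mem fun j _ => ht i0 j
    · exact hu0 j
  have huC : ∀ i, u i ∈ C := by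
    intro i
    refine Fin.cases ?_ (fun j => ?_) i
    · exact inn_sub hx0C
    · exact hu0C j
  have hcu0 : cn u0 ⊆ cn u := cn_sub (cn_cone u) fun j => gen_mem u j.succ
  have hx0u : x0 ∈ cn u := gen_mem u 0
  -- the relevant translates
  obtain ⟨F, hFdef⟩ : ∃ F : κ → Set (Module.End ℝ V), F = fun i =>
    {f | ∃ γ, ρ γ = f ∧ ∃ x ∈ cn u, x ∈ inn C ∧ ρ γ x ∈ cn (t i)} := ⟨_, rfl⟩
  have hF : ∀ i, (F i).Finite := fun i => by
    rw [hFdef]
    exact h.siegel hb hspan hu huC (ht i) (htC i)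
  have hFf : ∀ i, Finite (F i) := fun i => (hF i).to_subtype
  -- the subspaces which are to be avoided
  let I : Type _ := {a : Σ i, F i × Finset (Fin (m i)) //
    finrank ℝ (Submodule.span ℝ (t a.1 '' a.2.2)) + 1 < n}
  let L : I → Submodule ℝ V := fun a =>
    (Submodule.span ℝ (t a.1.1 '' a.1.2.2)).comap (a.1.2.1 : Module.End ℝ V) ⊔
      Submodule.span ℝ {x0}
  have hIf : Finite I := inferInstance
  have hL : ∀ a, L a ≠ ⊤ := by
    rintro ⟨⟨i, ⟨f, hf⟩, J⟩, hd⟩ htop
    rw [hFdef] at hf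
    obtain ⟨γ, rfl, -⟩ := hf
    have h1 : (Submodule.span ℝ (t i '' J)).comap (ρ γ) =
        (Submodule.span ℝ (t i '' J)).map (ρ γ⁻¹) := by
      ext x
      rw [Submodule.mem_comap, Submodule.mem_map]
      constructor
      · intro hx
        exact ⟨_, hx, rho_inv _ _⟩
      · rintro ⟨y, hy, rfl⟩
        rw [rho_inv']
        exact hy
    have h2 : finrank ℝ (L ⟨⟨i, ⟨ρ γ, hf⟩, J⟩, hd⟩) ≤
        finrank ℝ (Submodule.span ℝ (t i '' J)) + 1 := by
      refine (Submodule.finrank_add_le_finrank_add_finrank _ _).trans ?_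
      refine add_le_add ?_ ?_
      · change finrank ℝ ((Submodule.span ℝ (t i '' J)).comap (ρ γ)) ≤ _
        rw [h1]
        exact Submodule.finrank_map_le _ _
      · exact (finrank_span_le_card ({x0} : Set V)).trans (by simp)
    rw [htop, finrank_top, hn] at h2
    change finrank ℝ (Submodule.span ℝ (t i '' J)) + 1 < n at hd
    omega
  obtain ⟨v, hv⟩ := avoid L hL
  obtain ⟨ε1, hε1, h1⟩ := inn_seg h.cone hz v
  obtain ⟨ε2, hε2, h2⟩ := inn_seg (cn_cone u0) hzu v
  -- it suffices to consider the points near `z` in the generic direction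
  obtain ⟨γ, i, h3, -⟩ := closed_cov h b hb ht htC (w := v) hz fun δ hδ => by
    obtain ⟨s, hs0, hs1, hs2⟩ := avoid_near L hv z (lt_min hδ (lt_min hε1 hε2))
    have hs3 : s < ε1 := hs1.trans_le ((min_le_right _ _).trans (min_le_left _ _))
    have hs4 : s < ε2 := hs1.trans_le ((min_le_right _ _).trans (min_le_right _ _))
    refine ⟨s, hs0, hs1.trans_le (min_le_left _ _), ?_⟩
    obtain ⟨z', hz'⟩ : ∃ z' : V, z' = z + s • v := ⟨_, rfl⟩
    have hz'C : z' ∈ inn C := by rw [hz']; exact h1 s hs0.le hs3.le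
    have hz'u : z' ∈ cn u := by rw [hz']; exact hcu0 (inn_sub (h2 s hs0.le hs4.le))
    rw [← hz'] at hs2 ⊢
    refine loc_seg h b hb ht htC hx0C hz'C ⟨1, i0, x0, inn_sub hx0i, (hone x0).symm⟩ ?_
    intro r hr0 hr1 hr
    obtain ⟨p, hp⟩ : ∃ p : V, p = x0 + r • (z' - x0) := ⟨_, rfl⟩
    rw [← hp] at hr ⊢
    have hpe : p = (1 - r) • x0 + r • z' := by
      rw [hp, smul_sub, sub_smul, one_smul]; abel
    have hpC : p ∈ inn C := by
      rw [hpe]
      exact inn_add h.cone (inn_smul h.cone hx0C (by linarith))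
        (h.cone.smul _ hr0 _ (inn_sub hz'C))
    have hpu : p ∈ cn u := by
      rw [hpe]
      exact (cn_cone u).add _ ((cn_cone u).smul _ (by linarith) _ hx0u) _
        ((cn_cone u).smul _ hr0 _ hz'u)
    rcases hr0.eq_or_lt with hr00 | hr00
    · -- near the starting point
      rw [← hr00, zero_smul, add_zero] at hp
      rw [hp]
      obtain ⟨ε, hε, h4⟩ := inn_seg (cn_cone (t i0)) hx0i (z' - x0)
      exact ⟨ε, hε, fun s' hs' hs'' => ⟨1, i0, _, inn_sub (h4 s' hs' hs''), (hone _).symm⟩⟩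
    · obtain ⟨γ, i, y, hy, hpy⟩ := hr
      have hfp : ρ γ⁻¹ p = y := by rw [hpy, rho_inv]
      have hfF : ρ γ⁻¹ ∈ F i := by
        rw [hFdef]
        exact ⟨_, rfl, p, hpu, hpC, by rw [hfp]; exact hy⟩
      have hyC : y ∈ inn C := by rw [← hfp]; exact h.inn_rho hpC _
      obtain ⟨J, a, ha, hya, hmax⟩ := maxsupp hy
      obtain ⟨w, hw⟩ : ∃ w : V, w = ρ γ⁻¹ (z' - x0) := ⟨_, rfl⟩
      have hback : ∀ s' : ℝ, p + s' • (z' - x0) = ρ γ (y + s' • w) := by
        intro s'
        rw [map_add, map_smul, ← hpy, hw, rho_inv']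
      simp only [hback]
      -- the dimension of the face
      have hdim : n ≤ finrank ℝ (Submodule.span ℝ (t i '' J)) + 1 := by
        by_contra hcon
        push Not at hcon
        refine hs2 ⟨⟨i, ⟨ρ γ⁻¹, hfF⟩, J⟩, hcon⟩ ?_
        have h5 : z' = r⁻¹ • p + (-(r⁻¹ * (1 - r))) • x0 := by
          rw [hpe, smul_add, smul_smul, smul_smul, inv_mul_cancel₀ hr00.ne', one_smul, neg_smul]
          abel
        rw [h5]
        refine Submodule.add_mem_sup (Submodule.smul_mem _ _ ?_)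
          (Submodule.smul_mem _ _ (Submodule.mem_span_singleton_self x0))
        change ρ γ⁻¹ p ∈ Submodule.span ℝ (t i '' J)
        rw [hfp, hya]
        exact Submodule.sum_mem _ fun j hj => Submodule.smul_mem _ _
          (Submodule.subset_span ⟨j, hj, rfl⟩)
      by_cases htop : Submodule.span ℝ (t i '' J) = ⊤
      · -- an interior point
        have h5 := hintr i J a ha htop
        rw [← hya] at h5
        obtain ⟨ε, hε, h6⟩ := inn_seg (cn_cone (t i)) h5 w
        exact ⟨ε, hε, fun s' hs' hs'' => ⟨γ, i, _, inn_sub (h6 s' hs' hs''), rfl⟩⟩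
      · -- a point on a facet
        obtain ⟨ℓ, hℓpos, hℓ0, hℓJ, hker⟩ := facet_cases b ha hya hmax hdim htop
        have hℓy : ℓ y = 0 := by
          rw [hya, map_sum]
          exact Finset.sum_eq_zero fun j hj => by rw [map_smul, (hℓJ j).2 hj, smul_zero]
        obtain ⟨γ', i', h5, y1, hy1, hy1n⟩ := hfacet i ℓ hℓ0 hℓpos (by
          rw [hker]
          refine Submodule.span_mono ?_
          rintro _ ⟨j, hj, rfl⟩
          exact ⟨j, (hℓJ j).2 hj, rfl⟩) ⟨y, hy, hℓy, hyC⟩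
        rcases le_or_gt 0 (ℓ w) with hlw | hlw
        · -- towards the cone
          obtain ⟨j1, hj1⟩ : ∃ j1, 0 < ℓ (t i j1) := by
            by_contra hcon
            push Not at hcon
            apply hℓ0
            have h6 : ∀ x ∈ Submodule.span ℝ (Set.range (t i)), ℓ x = 0 := by
              intro x hx
              have h7 : Submodule.span ℝ (Set.range (t i)) ≤ LinearMap.ker ℓ := by
                rw [Submodule.span_le]
                rintro _ ⟨j, rfl⟩
                exact le_antisymm (hcon j) (hℓpos j)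
              exact h7 hx
            refine LinearMap.ext fun x => h6 x (by rw [hfull i]; trivial)
          have h6 : w - (ℓ w / ℓ (t i j1)) • t i j1 ∈ Submodule.span ℝ (t i '' J) := by
            rw [← hker, LinearMap.mem_ker, map_sub, map_smul, smul_eq_mul,
              div_mul_cancel₀ _ hj1.ne', sub_self]
          obtain ⟨ε, hε, h7⟩ := relint ha h6
          refine ⟨ε, hε, fun s' hs' hs'' => ⟨γ, i, _, ?_, rfl⟩⟩
          have h8 := h7 s' hs' hs'' _ (cn_cone (t i)) fun j _ => gen_mem _ j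
          rw [← hya] at h8
          have h9 : y + s' • w = (y + s' • (w - (ℓ w / ℓ (t i j1)) • t i j1)) +
              (s' * (ℓ w / ℓ (t i j1))) • t i j1 := by
            rw [smul_sub, smul_smul]
            abel
          rw [h9]
          exact (cn_cone (t i)).add _ h8 _ ((cn_cone (t i)).smul _
            (mul_nonneg hs' (div_nonneg hlw hj1.le)) _ (gen_mem _ _))
        · -- behind the facet
          have h6 : w - (ℓ w / ℓ y1) • y1 ∈ Submodule.span ℝ (t i '' J) := by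
            rw [← hker, LinearMap.mem_ker, map_sub, map_smul, smul_eq_mul,
              div_mul_cancel₀ _ hy1n.ne, sub_self]
          have hK : IsCone (ρ γ' '' cn (t i')) := by
            rw [cn_map]
            exact cn_cone _
          obtain ⟨ε, hε, h7⟩ := relint ha h6
          refine ⟨ε, hε, fun s' hs' hs'' => ?_⟩
          have h8 := h7 s' hs' hs'' _ hK fun j hj => h5 j ((hℓJ j).2 hj)
          rw [← hya] at h8
          have h9 : y + s' • w = (y + s' • (w - (ℓ w / ℓ y1) • y1)) +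
              (s' * (ℓ w / ℓ y1)) • y1 := by
            rw [smul_sub, smul_smul]
            abel
          obtain ⟨q, hq, hq'⟩ := hK.add _ h8 _ (hK.smul (s' * (ℓ w / ℓ y1))
            (mul_nonneg hs' (div_nonneg_of_nonpos hlw.le hy1n.le)) _ hy1)
          refine ⟨γ * γ', i', q, hq, ?_⟩
          rw [rho_mul, hq', ← h9]
  exact ⟨γ, i, h3⟩

/-- A rational polyhedral cone whose translates cover the cone spans the space. -/
theorem full_of_cover (h : Dat Λ C ρ ξ) {n : ℕ} (b : Basis (Fin n) ℝ V) (hb : ∀ i, b i ∈ Λ)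
    {m : ℕ} {t : Fin m → V} (ht : ∀ i, t i ∈ Λ) (htC : ∀ i, t i ∈ C)
    (hcov : ∀ x ∈ C, ∃ γ, ∃ y ∈ cn t, x = ρ γ y) {x0 : V} (hx0 : x0 ∈ inn C) :
    Submodule.span ℝ (Set.range t) = ⊤ := by
  classical
  by_contra hne
  have hspan : ∀ x, x ∈ Submodule.span ℝ (Set.range b) := fun x => by
    rw [b.span_eq]; trivial
  obtain ⟨m0, u, hu, huC, hxu⟩ := exists_nhd h.cone b hb hx0
  obtain ⟨F, hFdef⟩ : ∃ F : Set (Module.End ℝ V), F =
    {f | ∃ γ, ρ γ = f ∧ ∃ x ∈ cn u, x ∈ inn C ∧ ρ γ x ∈ cn t} := ⟨_, rfl⟩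
  have hF : F.Finite := by
    rw [hFdef]
    exact h.siegel hb hspan hu huC ht htC
  have hFf : Finite F := hF.to_subtype
  obtain ⟨v, hv⟩ := avoid (fun f : F => (Submodule.span ℝ (Set.range t)).comap
    (f : Module.End ℝ V)) (by
      rintro ⟨f, hf⟩ htop
      rw [hFdef] at hf
      obtain ⟨γ, rfl, -⟩ := hf
      apply hne
      rw [eq_top_iff]
      intro x _
      have h1 : ρ γ⁻¹ x ∈ (Submodule.span ℝ (Set.range t)).comap (ρ γ) := by
        change ρ γ⁻¹ x ∈ (Submodule.span ℝ (Set.range t)).comap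
          ((⟨ρ γ, hf⟩ : F) : Module.End ℝ V)
        rw [htop]; trivial
      rw [Submodule.mem_comap, rho_inv'] at h1
      exact h1)
  obtain ⟨ε1, hε1, h1⟩ := inn_seg h.cone hx0 v
  obtain ⟨ε2, hε2, h2⟩ := inn_seg (cn_cone u) hxu v
  obtain ⟨s, hs0, hs1, hs2⟩ := avoid_near _ hv x0 (lt_min hε1 hε2)
  have hs3 : s < ε1 := hs1.trans_le (min_le_left _ _)
  have hs4 : s < ε2 := hs1.trans_le (min_le_right _ _)
  obtain ⟨γ, y, hy, hxy⟩ := hcov _ (inn_sub (h1 s hs0.le hs3.le))
  have h3 : ρ γ⁻¹ (x0 + s • v) = y := by rw [hxy, rho_inv]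
  have h4 : ρ γ⁻¹ ∈ F := by
    rw [hFdef]
    exact ⟨_, rfl, _, inn_sub (h2 s hs0.le hs4.le), h1 s hs0.le hs3.le, by rw [h3]; exact hy⟩
  refine hs2 ⟨_, h4⟩ ?_
  change ρ γ⁻¹ (x0 + s • v) ∈ Submodule.span ℝ (Set.range t)
  rw [h3]
  obtain ⟨a, ha, hya⟩ := hy
  rw [hya]
  exact Submodule.sum_mem _ fun j _ => Submodule.smul_mem _ _ (Submodule.subset_span ⟨j, rfl⟩)

end

end Pool.Agent.H899.LG
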