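import Pool.Agent.H899.LG.Loc

/-! The local-to-global principle for coverings by rational polyhedral cones. -/

set_option autoImplicit false
set_option linter.overlappingInstances false
set_option linter.unusedSectionVars false
set_option linter.unusedVariables false

open Module Pool.Agent.K1H17.MC

namespace Pool.Agent.H899.LG

section

variable {V : Type*} [AddCommGroup V] [Module ℝ V] {Γ : Type*} [Group Γ]
  {Λ : AddSubgroup V} {C : Set V} {ρ : Γ →* Module.End ℝ V} {ξ : V →ₗ[ℝ] ℝ}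

/-- The data for a subgroup. -/
theorem Dat.restrict (h : Dat Λ C ρ ξ) (G : Subgroup Γ) : Dat Λ C (ρ.comp G.subtype) ξ where
  cone := h.cone
  stabΛ := fun γ => h.stabΛ γ
  stabC := fun γ => h.stabC γ
  int := h.int
  nonneg := h.nonneg
  stab := by
    refine h.stab.subset ?_
    rintro f ⟨⟨γ, hγ⟩, hf⟩
    exact ⟨⟨γ, hγ⟩, hf⟩
  sep := h.sep

/-- The translates of finitely many rational polyhedral cones form a closed subset of the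
interior. -/
theorem closed_cov (h : Dat Λ C ρ ξ) {n : ℕ} (b : Basis (Fin n) ℝ V) (hb : ∀ i, b i ∈ Λ)
    {κ : Type*} [Finite κ] {m : κ → ℕ} {t : ∀ i, Fin (m i) → V} (ht : ∀ i j, t i j ∈ Λ)
    (htC : ∀ i j, t i j ∈ C) {p w : V} (hp : p ∈ inn C)
    (hcov : ∀ δ : ℝ, 0 < δ → ∃ s : ℝ, 0 < s ∧ s < δ ∧
      ∃ γ i, ∃ y ∈ cn (t i), p + s • w = ρ γ y) :
    ∃ γ i, (∃ y ∈ cn (t i), p = ρ γ y) ∧ ∀ δ : ℝ, 0 < δ → ∃ s : ℝ, 0 < s ∧ s < δ ∧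
      ∃ y ∈ cn (t i), p + s • w = ρ γ y := by
  classical
  obtain ⟨m0, u, hu, huC, hpu⟩ := exists_nhd h.cone b hb hp
  obtain ⟨ε1, hε1, h1⟩ := inn_seg h.cone hp w
  obtain ⟨ε2, hε2, h2⟩ := inn_seg (cn_cone u) hpu w
  have hspan : ∀ x, x ∈ Submodule.span ℝ (Set.range b) := fun x => by
    rw [b.span_eq]; trivial
  obtain ⟨F, hFdef⟩ : ∃ F : κ → Set (Module.End ℝ V), F = fun i =>
    {f | ∃ γ, ρ γ = f ∧ ∃ x ∈ cn u, x ∈ inn C ∧ ρ γ x ∈ cn (t i)} := ⟨_, rfl⟩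
  have hF : ∀ i, (F i).Finite := fun i => by
    rw [hFdef]
    exact h.siegel hb hspan hu huC (ht i) (htC i)
  have hFF : {a : κ × Module.End ℝ V | a.2 ∈ F a.1}.Finite := by
    have h3 : (⋃ i, (fun f => ((i, f) : κ × Module.End ℝ V)) '' F i).Finite :=
      Set.finite_iUnion fun i => (hF i).image _
    refine h3.subset ?_
    rintro ⟨i, f⟩ hf
    exact Set.mem_iUnion.2 ⟨i, f, hf, rfl⟩
  obtain ⟨⟨i, f⟩, hif, hR⟩ := pigeon hFF (R := fun a s => a.2 (p + s • w) ∈ cn (t a.1)) (by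
    intro δ hδ
    obtain ⟨s, hs, hsδ, γ, i, y, hy, hpy⟩ := hcov (min δ (min ε1 ε2))
      (lt_min hδ (lt_min hε1 hε2))
    have hs1 : s < ε1 := hsδ.trans_le ((min_le_right _ _).trans (min_le_left _ _))
    have hs2 : s < ε2 := hsδ.trans_le ((min_le_right _ _).trans (min_le_right _ _))
    have h3 : ρ γ⁻¹ (p + s • w) = y := by rw [hpy, rho_inv]
    refine ⟨s, hs, hsδ.trans_le (min_le_left _ _), (i, ρ γ⁻¹), ?_, ?_⟩
    · change ρ γ⁻¹ ∈ F i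
      rw [hFdef]
      exact ⟨_, rfl, _, inn_sub (h2 s hs.le hs2.le), h1 s hs.le hs1.le, by rw [h3]; exact hy⟩
    · change ρ γ⁻¹ (p + s • w) ∈ cn (t i)
      rw [h3]; exact hy)
  change f ∈ F i at hif
  rw [hFdef] at hif
  obtain ⟨γ, rfl, -⟩ := hif
  refine ⟨γ⁻¹, i, ⟨ρ γ p, ?_, (rho_inv _ _).symm⟩, fun δ hδ => ?_⟩
  · refine cn_closed (t i) (v := ρ γ w) fun δ hδ => ?_
    obtain ⟨s, hs, hsδ, h3⟩ := hR δ hδ
    refine ⟨s, hs, hsδ, ?_⟩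
    change ρ γ (p + s • w) ∈ cn (t i) at h3
    rwa [map_add, map_smul] at h3
  · obtain ⟨s, hs, hsδ, h3⟩ := hR δ hδ
    exact ⟨s, hs, hsδ, _, h3, (rho_inv _ _).symm⟩

/-- **The local-to-global principle.** -/
theorem loc_glob (h : Dat Λ C ρ ξ) {n : ℕ} (b : Basis (Fin n) ℝ V) (hb : ∀ i, b i ∈ Λ)
    {κ : Type*} [Finite κ] {m : κ → ℕ} {t : ∀ i, Fin (m i) → V} (ht : ∀ i j, t i j ∈ Λ)
    (htC : ∀ i j, t i j ∈ C) {x0 : V} (hx0 : x0 ∈ inn C)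
    (hx0c : ∃ γ i, ∃ y ∈ cn (t i), x0 = ρ γ y)
    (hloc : ∀ x ∈ inn C, (∃ γ i, ∃ y ∈ cn (t i), x = ρ γ y) → ∀ v : V, ∃ ε : ℝ, 0 < ε ∧
      ∀ s : ℝ, 0 ≤ s → s ≤ ε → ∃ γ i, ∃ y ∈ cn (t i), x + s • v = ρ γ y) :
    ∀ z ∈ inn C, ∃ γ i, ∃ y ∈ cn (t i), z = ρ γ y := by
  classical
  intro z hz
  obtain ⟨S, hSdef⟩ : ∃ S : Set ℝ, S = {s : ℝ | ∃ γ i, ∃ y ∈ cn (t i),
    x0 + s • (z - x0) = ρ γ y} := ⟨_, rfl⟩
  have hseg : ∀ s ∈ Set.Icc (0 : ℝ) 1, x0 + s • (z - x0) ∈ inn C := by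
    rintro s ⟨hs0, hs1⟩
    rcases hs1.eq_or_lt with h1 | h1
    · rw [h1, one_smul, add_sub_cancel]
      exact hz
    · have h2 : x0 + s • (z - x0) = (1 - s) • x0 + s • z := by
        rw [smul_sub, sub_smul, one_smul]; abel
      rw [h2]
      exact inn_add h.cone (inn_smul h.cone hx0 (by linarith)) (h.cone.smul _ hs0 _ (inn_sub hz))
  have hcl : ∀ s ∈ Set.Icc (0 : ℝ) 1, (∀ δ : ℝ, 0 < δ → ∃ s' ∈ S, |s' - s| < δ) → s ∈ S := by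
    intro s hs hδ
    by_contra hns
    have h1 : (∀ δ : ℝ, 0 < δ → ∃ s' : ℝ, 0 < s' ∧ s' < δ ∧ s + s' ∈ S) ∨
        (∀ δ : ℝ, 0 < δ → ∃ s' : ℝ, 0 < s' ∧ s' < δ ∧ s - s' ∈ S) := by
      by_contra hcon
      push Not at hcon
      obtain ⟨⟨δ1, h1, h2⟩, ⟨δ2, h3, h4⟩⟩ := hcon
      obtain ⟨s', hs', hlt⟩ := hδ (min δ1 δ2) (lt_min h1 h3)
      rcases lt_trichotomy s' s with h5 | h5 | h5
      · refine h4 (s - s') (by linarith) ?_ (by rwa [sub_sub_cancel])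
        have h6 := hlt.trans_le (min_le_right δ1 δ2)
        rw [abs_sub_comm, abs_of_pos (by linarith)] at h6
        exact h6
      · exact hns (h5 ▸ hs')
      · refine h2 (s' - s) (by linarith) ?_ (by rwa [add_sub_cancel])
        have h6 := hlt.trans_le (min_le_left δ1 δ2)
        rw [abs_of_pos (by linarith)] at h6
        exact h6
    apply hns
    rcases h1 with h1 | h1
    · obtain ⟨γ, i, h2, -⟩ := closed_cov h b hb ht htC (w := z - x0) (hseg s hs) fun δ hδ => by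
        obtain ⟨s', h3, h4, h5⟩ := h1 δ hδ
        refine ⟨s', h3, h4, ?_⟩
        rw [hSdef] at h5
        have h6 : x0 + s • (z - x0) + s' • (z - x0) = x0 + (s + s') • (z - x0) := by
          rw [add_smul]; abel
        rw [h6]
        exact h5
      rw [hSdef]
      exact ⟨γ, i, h2⟩
    · obtain ⟨γ, i, h2, -⟩ := closed_cov h b hb ht htC (w := -(z - x0)) (hseg s hs) fun δ hδ => by
        obtain ⟨s', h3, h4, h5⟩ := h1 δ hδ
        refine ⟨s', h3, h4, ?_⟩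
        rw [hSdef] at h5
        have h6 : x0 + s • (z - x0) + s' • -(z - x0) = x0 + (s - s') • (z - x0) := by
          rw [sub_smul, smul_neg]; abel
        rw [h6]
        exact h5
      rw [hSdef]
      exact ⟨γ, i, h2⟩
  have h01 : Set.Icc (0 : ℝ) 1 ⊆ S := by
    refine IsClosed.Icc_subset_of_forall_exists_gt ?_ ?_ ?_
    · refine isClosed_of_closure_subset fun s hs => ?_
      have hsI : s ∈ Set.Icc (0 : ℝ) 1 :=
        isClosed_Icc.closure_subset (closure_mono Set.inter_subset_right hs)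
      refine ⟨hcl s hsI fun δ hδ => ?_, hsI⟩
      obtain ⟨s', hs', hd⟩ := Metric.mem_closure_iff.1 hs δ hδ
      refine ⟨s', hs'.1, ?_⟩
      rw [Real.dist_eq, abs_sub_comm] at hd
      exact hd
    · rw [hSdef]
      obtain ⟨γ, i, y, hy, hxy⟩ := hx0c
      exact ⟨γ, i, y, hy, by rw [zero_smul, add_zero]; exact hxy⟩
    · rintro s ⟨hs, hs0, hs1⟩ y hy
      rw [hSdef] at hs
      obtain ⟨ε, hε, h1⟩ := hloc _ (hseg s ⟨hs0, hs1.le⟩) hs (z - x0)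
      have hy' : s < y := hy
      refine ⟨s + min ε (y - s), ?_, ?_, ?_⟩
      · rw [hSdef]
        have h2 := h1 (min ε (y - s)) (le_min hε.le (by linarith)) (min_le_left _ _)
        have h6 : x0 + s • (z - x0) + min ε (y - s) • (z - x0) =
            x0 + (s + min ε (y - s)) • (z - x0) := by
          rw [add_smul]; abel
        rw [h6] at h2
        exact h2
      · have := lt_min hε (show 0 < y - s by linarith)
        linarith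
      · have := min_le_right ε (y - s)
        linarith
  have h1 := h01 ⟨zero_le_one, le_rfl⟩
  rw [hSdef] at h1
  obtain ⟨γ, i, y, hy, h2⟩ := h1
  exact ⟨γ, i, y, hy, by rw [← h2, one_smul, add_sub_cancel]⟩

/-- A subgroup whose translates cover the interior has a finite index. -/
theorem fin_index (h : Dat Λ C ρ ξ) {n : ℕ} (b : Basis (Fin n) ℝ V) (hb : ∀ i, b i ∈ Λ)
    {κ : Type*} [Finite κ] {m : κ → ℕ} {t : ∀ i, Fin (m i) → V} (ht : ∀ i j, t i j ∈ Λ)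
    (htC : ∀ i j, t i j ∈ C) {G : Subgroup Γ} {i0 : κ} {x0 : V} (hx0 : x0 ∈ cn (t i0))
    (hx0i : x0 ∈ inn C)
    (hcov : ∀ x ∈ inn C, ∃ γ ∈ G, ∃ i, ∃ y ∈ cn (t i), x = ρ γ y) :
    ∃ F : Finset Γ, ∀ g : Γ, ∃ γ ∈ G, ∃ f ∈ F, ρ g = ρ γ ∘ₗ ρ f := by
  classical
  have hspan : ∀ x, x ∈ Submodule.span ℝ (Set.range b) := fun x => by
    rw [b.span_eq]; trivial
  obtain ⟨E, hEdef⟩ : ∃ E : Set (Module.End ℝ V), E = ⋃ i,
    {f | ∃ γ, ρ γ = f ∧ ∃ x ∈ cn (t i0), x ∈ inn C ∧ ρ γ x ∈ cn (t i)} := ⟨_, rfl⟩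
  have hE : E.Finite := by
    rw [hEdef]
    exact Set.finite_iUnion fun i => h.siegel hb hspan (ht i0) (htC i0) (ht i) (htC i)
  have hrep : ∀ f : Module.End ℝ V, ∃ γ : Γ, f ∈ E → ρ γ = f := by
    intro f
    by_cases hf : f ∈ E
    · have hf' := hf
      rw [hEdef, Set.mem_iUnion] at hf'
      obtain ⟨i, γ, hγ, -⟩ := hf'
      exact ⟨γ, fun _ => hγ⟩
    · exact ⟨1, fun h => absurd h hf⟩
  choose r hr using hrep
  refine ⟨hE.toFinset.image r, fun g => ?_⟩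
  obtain ⟨γ, hγ, i, y, hy, h1⟩ := hcov _ (h.inn_rho hx0i g)
  have h2 : ρ (γ⁻¹ * g) x0 = y := by rw [rho_mul, h1, rho_inv]
  have h3 : ρ (γ⁻¹ * g) ∈ E := by
    rw [hEdef]
    exact Set.mem_iUnion.2 ⟨i, _, rfl, x0, hx0, hx0i, by rw [h2]; exact hy⟩
  refine ⟨γ, hγ, r (ρ (γ⁻¹ * g)), Finset.mem_image_of_mem _ (hE.mem_toFinset.2 h3), ?_⟩
  rw [hr _ h3]
  refine LinearMap.ext fun x => ?_
  rw [LinearMap.comp_apply, rho_mul, rho_inv']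

/-- **The Dirichlet domain** is rational polyhedral. -/
theorem dirichlet (h : Dat Λ C ρ ξ) {n : ℕ} (b : Basis (Fin n) ℝ V) (hb : ∀ i, b i ∈ Λ)
    {Q : Set V} (hQ : RP Λ Q) (hQC : Q ⊆ C) (hcov : ∀ x ∈ C, ∃ γ, ∃ y ∈ Q, x = ρ γ y)
    {x1 : V} (hx1 : x1 ∈ inn C) :
    ∃ (m : ℕ) (t : Fin m → V), (∀ i, t i ∈ Λ) ∧
      cn t = {x | x ∈ C ∧ ∀ γ, ξ x ≤ ξ (ρ γ x)} ∧
      (∀ x ∈ C, ∃ γ, ∃ y ∈ cn t, x = ρ γ y) ∧ ∃ x ∈ cn t, x ∈ inn C := by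
  classical
  have hspan : ∀ x, x ∈ Submodule.span ℝ (Set.range b) := fun x => by
    rw [b.span_eq]; trivial
  obtain ⟨D, hDdef⟩ : ∃ D : Set V, D = {x | x ∈ C ∧ ∀ γ, ξ x ≤ ξ (ρ γ x)} := ⟨_, rfl⟩
  rw [← hDdef]
  have hDc : IsCone D := by
    rw [hDdef]
    refine ⟨⟨h.cone.zero, fun γ => by simp⟩, ?_, ?_⟩
    · rintro x ⟨hx, hx'⟩ y ⟨hy, hy'⟩
      refine ⟨h.cone.add _ hx _ hy, fun γ => ?_⟩
      rw [map_add, map_add, map_add]
      exact add_le_add (hx' γ) (hy' γ)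
    · rintro c hc x ⟨hx, hx'⟩
      refine ⟨h.cone.smul _ hc _ hx, fun γ => ?_⟩
      rw [map_smul, map_smul, map_smul]
      exact mul_le_mul_of_nonneg_left (hx' γ) hc
  obtain ⟨n0, t0, ht0, hQt⟩ := id hQ
  have hgen : ∀ i, t0 i ∈ C := fun i => hQC (by rw [hQt]; exact gen_mem t0 i)
  obtain ⟨S, hS⟩ := h.fin_min t0 ht0 hgen
  rw [← hQt] at hS
  have hSne : S.Nonempty := by
    obtain ⟨s, hs, -⟩ := hS 1
    exact ⟨s, hs⟩
  -- every orbit meets the Dirichlet domain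
  have hmeet : ∀ x ∈ C, ∃ γ, ρ γ x ∈ D := by
    intro x hx
    obtain ⟨γ, y, hy, rfl⟩ := hcov x hx
    obtain ⟨s, hs, hmin⟩ := S.exists_min_image (fun s => ξ (ρ s y)) hSne
    refine ⟨s * γ⁻¹, ?_⟩
    rw [rho_mul, rho_inv, hDdef]
    refine ⟨h.stabC _ _ (hQC hy), fun δ => ?_⟩
    obtain ⟨s', hs', hle⟩ := hS (δ * s)
    rw [← rho_mul]
    exact (hmin s' hs').trans (hle y hy)
  -- the finitely many translates which are needed
  have hM := h.MM_finite hb hspan ht0 hgen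
  rw [← hQt] at hM
  obtain ⟨E, hEdef⟩ : ∃ E : Set (Module.End ℝ V), E = {f | (∃ γ, ρ γ = f) ∧
    ξ ∘ₗ f ∈ MM C ρ ξ Q} := ⟨_, rfl⟩
  have hE : E.Finite := by
    have h1 : (⋃ η ∈ MM C ρ ξ Q, {f : Module.End ℝ V | (∃ γ, ρ γ = f) ∧ ξ ∘ₗ f = η}).Finite := by
      refine Set.Finite.biUnion hM fun η hη => ?_
      obtain ⟨⟨γ0, rfl⟩, -⟩ := hη
      refine (h.stab.image fun g => g * ρ γ0).subset ?_
      rintro f ⟨⟨γ, rfl⟩, hf⟩
      refine ⟨ρ (γ * γ0⁻¹), ⟨⟨_, rfl⟩, ?_⟩, ?_⟩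
      · refine LinearMap.ext fun x => ?_
        have h2 := congrArg (fun g : V →ₗ[ℝ] ℝ => g (ρ γ0⁻¹ x)) hf
        simp only [LinearMap.comp_apply] at h2
        rw [LinearMap.comp_apply, rho_mul, h2, rho_inv']
      · change ρ (γ * γ0⁻¹) * ρ γ0 = ρ γ
        rw [← map_mul, inv_mul_cancel_right]
    refine h1.subset ?_
    rw [hEdef]
    rintro f ⟨h2, h3⟩
    exact Set.mem_biUnion h3 ⟨h2, rfl⟩
  have hEf : Finite E := hE.to_subtype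
  obtain ⟨D1, hD1, hD1s, hD1m⟩ := sum_RP (Λ := Λ) (κ := E)
    (fun f => (f : Module.End ℝ V) '' {x | x ∈ Q ∧ ∀ s ∈ S, 0 ≤ (ξ ∘ₗ ρ s - ξ ∘ₗ
      (f : Module.End ℝ V)) x})
    fun f => by
      obtain ⟨f, hf⟩ := f
      rw [hEdef] at hf
      obtain ⟨⟨γ, rfl⟩, -⟩ := hf
      refine (hQ.cut_many S (fun s => ξ ∘ₗ ρ s - ξ ∘ₗ ρ γ) fun s' _ x hx => ?_).map _ (h.stabΛ _)
      obtain ⟨m, hm⟩ := h.int _ (h.stabΛ s' x hx)
      obtain ⟨m', hm'⟩ := h.int _ (h.stabΛ γ x hx)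
      exact ⟨m - m', by
        rw [LinearMap.sub_apply, LinearMap.comp_apply, LinearMap.comp_apply, hm, hm']
        push_cast; ring⟩
  have hD1D : D1 ⊆ D := by
    refine hD1m D hDc ?_
    rintro ⟨f, hf⟩ _ ⟨x, ⟨hx, hx'⟩, rfl⟩
    rw [hEdef] at hf
    obtain ⟨⟨γ, rfl⟩, -⟩ := hf
    rw [hDdef]
    refine ⟨h.stabC _ _ (hQC hx), fun δ => ?_⟩
    obtain ⟨s', hs', hle⟩ := hS (δ * γ)
    have h1 := hx' s' hs'
    change 0 ≤ (ξ ∘ₗ ρ s' - ξ ∘ₗ ρ γ) x at h1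
    rw [LinearMap.sub_apply, LinearMap.comp_apply, LinearMap.comp_apply] at h1
    have h2 := hle x hx
    rw [rho_mul] at h2
    change ξ (ρ γ x) ≤ ξ (ρ δ (ρ γ x))
    linarith
  have hDi : ∀ x ∈ D, x ∈ inn C → x ∈ D1 := by
    intro x hx hxi
    rw [hDdef] at hx
    obtain ⟨hxC, hmin⟩ := hx
    obtain ⟨γ, y, hy, rfl⟩ := hcov x hxC
    have hyi : y ∈ inn C := by
      have := h.inn_rho hxi γ⁻¹
      rwa [rho_inv] at this
    have hmin' : ∀ δ, ξ (ρ γ y) ≤ ξ (ρ δ y) := by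
      intro δ
      have h1 := hmin (δ * γ⁻¹)
      rwa [rho_mul, rho_inv] at h1
    have hfE : ρ γ ∈ E := by
      rw [hEdef]
      exact ⟨⟨γ, rfl⟩, ⟨γ, rfl⟩, y, hy, hyi, hmin'⟩
    refine hD1s ⟨ρ γ, hfE⟩ ⟨y, ⟨hy, fun s hs => ?_⟩, rfl⟩
    change 0 ≤ (ξ ∘ₗ ρ s - ξ ∘ₗ ρ γ) y
    rw [LinearMap.sub_apply, LinearMap.comp_apply, LinearMap.comp_apply, sub_nonneg]
    exact hmin' s
  obtain ⟨γ1, hγ1⟩ := hmeet x1 (inn_sub hx1)
  have hx1' := h.inn_rho hx1 γ1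
  have hDD1 : D ⊆ D1 := by
    intro x hx
    obtain ⟨m, t, ht, hD1t⟩ := id hD1
    rw [hD1t]
    refine cn_closed t (v := ρ γ1 x1) fun δ hδ => ⟨δ / 2, half_pos hδ, half_lt_self hδ, ?_⟩
    rw [← hD1t]
    refine hDi _ (hDc.add _ hx _ (hDc.smul _ (half_pos hδ).le _ hγ1)) ?_
    rw [add_comm]
    refine inn_add h.cone (inn_smul h.cone hx1' (half_pos hδ)) ?_
    rw [hDdef] at hx
    exact hx.1
  have hDeq : D1 = D := Set.Subset.antisymm hD1D hDD1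
  obtain ⟨m, t, ht, hD1t⟩ := hD1
  refine ⟨m, t, ht, by rw [← hD1t, hDeq], fun x hx => ?_, ρ γ1 x1, ?_, hx1'⟩
  · obtain ⟨γ, hγ⟩ := hmeet x hx
    exact ⟨γ⁻¹, ρ γ x, by rw [← hD1t, hDeq]; exact hγ, (rho_inv _ _).symm⟩
  · rw [← hD1t, hDeq]; exact hγ1

/-- **The translates of the Dirichlet domain form a tiling**, locally given by finitely many
elements. -/
theorem exists_cert (h : Dat Λ C ρ ξ) {n : ℕ} (b : Basis (Fin n) ℝ V) (hb : ∀ i, b i ∈ Λ)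
    {m : ℕ} {t : Fin m → V} (ht : ∀ i, t i ∈ Λ)
    (hD : cn t = {x | x ∈ C ∧ ∀ γ, ξ x ≤ ξ (ρ γ x)})
    (hcov : ∀ x ∈ C, ∃ γ, ∃ y ∈ cn t, x = ρ γ y) :
    ∃ S : Finset Γ, ∀ J : Finset (Fin m), ∑ j ∈ J, t j ∈ inn C → ∀ v : V, ∃ ε : ℝ, 0 < ε ∧
      ∃ g ∈ S, ∑ j ∈ J, t j + ε • v ∈ ρ g '' cn t ∧ ∀ j ∈ J, t j ∈ ρ g '' cn t := by
  classical
  have hspan : ∀ x, x ∈ Submodule.span ℝ (Set.range b) := fun x => by
    rw [b.span_eq]; trivial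
  have htD : ∀ i, t i ∈ C ∧ ∀ γ, ξ (t i) ≤ ξ (ρ γ (t i)) := fun i => by
    have h1 := gen_mem t i
    rw [hD] at h1
    exact h1
  obtain ⟨F, hFdef⟩ : ∃ F : Set (Module.End ℝ V),
    F = {f | ∃ γ, ρ γ = f ∧ ∃ x ∈ cn t, x ∈ inn C ∧ ρ γ x ∈ cn t} := ⟨_, rfl⟩
  have hF : F.Finite := by
    rw [hFdef]
    exact h.siegel hb hspan ht (fun i => (htD i).1) ht (fun i => (htD i).1)
  have hrep : ∀ f : Module.End ℝ V, ∃ γ : Γ, f ∈ F → ρ γ = f := by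
    intro f
    by_cases hf : f ∈ F
    · have hf' := hf
      rw [hFdef] at hf'
      obtain ⟨γ, hγ, -⟩ := hf'
      exact ⟨γ, fun _ => hγ⟩
    · exact ⟨1, fun h => absurd h hf⟩
  choose r hr using hrep
  refine ⟨hF.toFinset.image fun f => (r f)⁻¹, fun J hJ v => ?_⟩
  obtain ⟨ε1, hε1, h1⟩ := inn_seg h.cone hJ v
  obtain ⟨γ, -, ⟨y, hy, hJy⟩, hlim⟩ := closed_cov h b hb (κ := Unit) (m := fun _ => m)
    (t := fun _ => t) (fun _ => ht) (fun _ i => (htD i).1) (w := v) hJ fun δ hδ => by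
      refine ⟨min δ ε1 / 2, half_pos (lt_min hδ hε1), ?_, ?_⟩
      · have := min_le_left δ ε1
        have := lt_min hδ hε1
        linarith
      · obtain ⟨γ, y, hy, h2⟩ := hcov _ (inn_sub (h1 (min δ ε1 / 2) (half_pos
          (lt_min hδ hε1)).le (by
            have := min_le_right δ ε1
            have := lt_min hδ hε1
            linarith)))
        exact ⟨γ, (), y, hy, h2⟩
  obtain ⟨s, hs, -, y', hy', hs'⟩ := hlim 1 one_pos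
  have h2 : ρ γ⁻¹ (∑ j ∈ J, t j) = y := by rw [hJy, rho_inv]
  have hJD : ∑ j ∈ J, t j ∈ cn t := (cn_cone t).sum _ _ fun j _ => gen_mem t j
  have h3 : ρ γ⁻¹ ∈ F := by
    rw [hFdef]
    exact ⟨_, rfl, _, hJD, hJ, by rw [h2]; exact hy⟩
  have h4 : ρ (r (ρ γ⁻¹))⁻¹ = ρ γ := by
    have h5 := hr _ h3
    calc ρ (r (ρ γ⁻¹))⁻¹ = ρ (r (ρ γ⁻¹))⁻¹ * (ρ γ⁻¹ * ρ γ) := by
          rw [← map_mul ρ γ⁻¹, inv_mul_cancel, map_one, mul_one]
      _ = ρ (r (ρ γ⁻¹))⁻¹ * (ρ (r (ρ γ⁻¹)) * ρ γ) := by rw [h5]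
      _ = ρ γ := by
          rw [← mul_assoc, ← map_mul, inv_mul_cancel, map_one, one_mul]
  -- the translate contains the generators
  have h5 : ∀ j ∈ J, ξ (ρ γ⁻¹ (t j)) = ξ (t j) := by
    have h6 : ξ y ≤ ξ (∑ j ∈ J, t j) := by
      rw [hD] at hy
      have := hy.2 γ
      rwa [← hJy] at this
    rw [← h2, map_sum, map_sum, map_sum, ← sub_nonneg, ← Finset.sum_sub_distrib] at h6
    have h7 : ∀ j ∈ J, 0 ≤ ξ (ρ γ⁻¹ (t j)) - ξ (t j) := fun j _ =>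
      sub_nonneg.2 ((htD j).2 _)
    have h8 : ∑ j ∈ J, (ξ (ρ γ⁻¹ (t j)) - ξ (t j)) = 0 := by
      refine le_antisymm ?_ (Finset.sum_nonneg h7)
      rw [← neg_nonneg, ← Finset.sum_neg_distrib]
      refine le_of_le_of_eq h6 (Finset.sum_congr rfl fun j _ => by ring)
    intro j hj
    have := (Finset.sum_eq_zero_iff_of_nonneg h7).1 h8 j hj
    linarith
  refine ⟨s, hs, (r (ρ γ⁻¹))⁻¹, Finset.mem_image.2 ⟨_, hF.mem_toFinset.2 h3, rfl⟩, ?_, ?_⟩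
  · rw [h4]
    exact ⟨y', hy', hs'.symm⟩
  · intro j hj
    rw [h4]
    refine ⟨ρ γ⁻¹ (t j), ?_, rho_inv' _ _⟩
    rw [hD]
    refine ⟨h.stabC _ _ (htD j).1, fun δ => ?_⟩
    rw [h5 j hj, ← rho_mul]
    exact (htD j).2 _

end

end Pool.Agent.H899.LG
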