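import Pool.Graph.R_pool_sql_team_seeded_efc1946e.K1H17.MC.Bg

/-! Coverings of the interior of a cone by the translates of rational polyhedral cones: a local
criterion. -/

set_option autoImplicit false
set_option linter.overlappingInstances false
set_option linter.unusedSectionVars false
set_option linter.unusedVariables false

open Module Pool.Agent.K1H17.MC

namespace Pool.Agent.H899.LG

section

variable {V : Type*} [AddCommGroup V] [Module ℝ V]

/-- A finite set of possibilities: one of them occurs for arbitrarily small parameters. -/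
theorem pigeon {α : Type*} {F : Set α} (hF : F.Finite) {R : α → ℝ → Prop}
    (h : ∀ δ : ℝ, 0 < δ → ∃ s : ℝ, 0 < s ∧ s < δ ∧ ∃ a ∈ F, R a s) :
    ∃ a ∈ F, ∀ δ : ℝ, 0 < δ → ∃ s : ℝ, 0 < s ∧ s < δ ∧ R a s := by
  classical
  by_contra hcon
  push Not at hcon
  have h1 : ∀ a : α, ∃ δ : ℝ, 0 < δ ∧ (a ∈ F → ∀ s : ℝ, 0 < s → s < δ → ¬ R a s) := by
    intro a
    by_cases ha : a ∈ F
    · obtain ⟨δ, hδ, h2⟩ := hcon a ha
      exact ⟨δ, hδ, fun _ => h2⟩
    · exact ⟨1, one_pos, fun h => absurd h ha⟩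
  choose δ hδ0 hδ using h1
  obtain ⟨s0, -, -, a0, ha0, -⟩ := h 1 one_pos
  obtain ⟨p, hp, hmin⟩ := hF.toFinset.exists_min_image δ ⟨a0, hF.mem_toFinset.2 ha0⟩
  obtain ⟨s, hs, hsδ, a, ha, hR⟩ := h (δ p) (hδ0 p)
  exact hδ a ha s hs (hsδ.trans_le (hmin a (hF.mem_toFinset.2 ha))) hR

/-- The cross-polytope with the centre `z`. -/
theorem cross {C : Set V} (hC : IsCone C) {n : ℕ} {b : Fin n → V} {z : V} {r : ℝ} (hr : 0 < r)
    (hz : z ∈ C) (h1 : ∀ i, z + r • b i ∈ C) (h2 : ∀ i, z - r • b i ∈ C) (c : Fin n → ℝ)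
    (hc : ∑ i, |c i| ≤ r) : z + ∑ i, c i • b i ∈ C := by
  have h3 : z + ∑ i, c i • b i = (1 - (∑ i, |c i|) / r) • z +
      ∑ i, (|c i| / r) • (z + (if 0 ≤ c i then r else -r) • b i) := by
    simp only [smul_add, Finset.sum_add_distrib, smul_smul, ← Finset.sum_smul, ← Finset.sum_div,
      sub_smul, one_smul]
    have h4 : ∀ i, |c i| / r * (if 0 ≤ c i then r else -r) = c i := by
      intro i
      split_ifs with h
      · rw [abs_of_nonneg h, div_mul_cancel₀ _ hr.ne']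
      · rw [abs_of_neg (not_le.1 h)]
        field_simp
    simp only [h4]
    abel
  rw [h3]
  refine hC.add _ (hC.smul _ ?_ _ hz) _ (hC.sum _ _ fun i _ => hC.smul _ (by positivity) _ ?_)
  · rw [sub_nonneg, div_le_one hr]
    exact hc
  · split_ifs
    · exact h1 i
    · rw [neg_smul, ← sub_eq_add_neg]
      exact h2 i

theorem cone_seg {C : Set V} (hC : IsCone C) {x w : V} {ε s : ℝ} (hx : x ∈ C)
    (hw : x + ε • w ∈ C) (hs : 0 ≤ s) (hsε : s ≤ ε) : x + s • w ∈ C := by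
  rcases hs.eq_or_lt with h0 | h0
  · rw [← h0, zero_smul, add_zero]
    exact hx
  · have hε : 0 < ε := h0.trans_le hsε
    have h3 : x + s • w = (1 - s / ε) • x + (s / ε) • (x + ε • w) := by
      rw [smul_add, smul_smul, div_mul_cancel₀ _ hε.ne', sub_smul, one_smul]
      abel
    rw [h3]
    refine hC.add _ (hC.smul _ ?_ _ hx) _ (hC.smul _ (by positivity) _ hw)
    rw [sub_nonneg, div_le_one hε]
    exact hsε

/-- The interior is radially open. -/
theorem inn_seg {C : Set V} (hC : IsCone C) {x : V} (hx : x ∈ inn C) (w : V) :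
    ∃ ε : ℝ, 0 < ε ∧ ∀ s : ℝ, 0 ≤ s → s ≤ ε → x + s • w ∈ inn C := by
  obtain ⟨ε, hε, h1⟩ := hx w
  refine ⟨ε / 2, half_pos hε, fun s hs hs2 => ?_⟩
  have hsε : s < ε := by linarith
  have h3 : x + s • w = (1 - s / ε) • x + (s / ε) • (x + ε • w) := by
    rw [smul_add, smul_smul, div_mul_cancel₀ _ hε.ne', sub_smul, one_smul]
    abel
  rw [h3]
  refine inn_add hC (inn_smul hC hx ?_) (hC.smul _ (by positivity) _ h1)
  rw [sub_pos, div_lt_one hε]
  exact hsε

/-- An interior point has a rational polyhedral neighbourhood. -/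
theorem exists_nhd {Λ : AddSubgroup V} {C : Set V} (hC : IsCone C) {n : ℕ}
    (b : Basis (Fin n) ℝ V) (hb : ∀ i, b i ∈ Λ) {p : V} (hp : p ∈ inn C) :
    ∃ (m : ℕ) (t : Fin m → V), (∀ i, t i ∈ Λ) ∧ (∀ i, t i ∈ C) ∧ p ∈ inn (cn t) := by
  classical
  -- a bound for the coordinate directions
  obtain ⟨ε, hε, h1, h2⟩ : ∃ ε : ℝ, 0 < ε ∧ (∀ i, p + ε • b i ∈ C) ∧ (∀ i, p - ε • b i ∈ C) := by
    choose ε1 hε1 h1 using fun i => hp (b i)
    choose ε2 hε2 h2 using fun i => hp (-(b i))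
    obtain ⟨ε, hε, hle⟩ : ∃ ε : ℝ, 0 < ε ∧ ∀ i, ε ≤ ε1 i ∧ ε ≤ ε2 i := by
      obtain ⟨S, hS⟩ : ∃ S : Finset ℝ, S = insert 1 (Finset.univ.image fun i : Fin n =>
        min (ε1 i) (ε2 i)) := ⟨_, rfl⟩
      have hne : S.Nonempty := by rw [hS]; exact Finset.insert_nonempty _ _
      refine ⟨S.min' hne, ?_, fun i => ?_⟩
      · have h3 := S.min'_mem hne
        generalize S.min' hne = x at h3
        rw [hS, Finset.mem_insert, Finset.mem_image] at h3
        rcases h3 with h3 | ⟨i, -, h3⟩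
        · rw [h3]; exact one_pos
        · rw [← h3]; exact lt_min (hε1 i) (hε2 i)
      · have h3 : S.min' hne ≤ min (ε1 i) (ε2 i) := S.min'_le _ (by
          rw [hS]
          exact Finset.mem_insert_of_mem (Finset.mem_image_of_mem _ (Finset.mem_univ i)))
        exact ⟨h3.trans (min_le_left _ _), h3.trans (min_le_right _ _)⟩
    refine ⟨ε, hε, fun i => cone_seg hC (inn_sub hp) (h1 i) hε.le (hle i).1, fun i => ?_⟩
    rw [sub_eq_add_neg, ← smul_neg]
    exact cone_seg hC (inn_sub hp) (h2 i) hε.le (hle i).2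
  have hcr : ∀ c : Fin n → ℝ, ∑ i, |c i| ≤ ε → p + ∑ i, c i • b i ∈ C := fun c hc =>
    cross hC hε (inn_sub hp) h1 h2 c hc
  -- a rational approximation
  obtain ⟨N, hN⟩ := exists_nat_gt ((2 * (n : ℝ) + 1) / ε)
  have hN0 : 0 < (N : ℝ) := lt_of_le_of_lt (by positivity) hN
  have hN1 : (2 * (n : ℝ) + 1) / N ≤ ε := by
    rw [div_lt_iff₀ hε] at hN
    rw [div_le_iff₀ hN0]
    linarith
  let q : V := ∑ i, ⌊(N : ℝ) * b.repr p i⌋ • b i
  have hq : q = (N : ℝ) • p + ∑ i, ((⌊(N : ℝ) * b.repr p i⌋ : ℝ) - N * b.repr p i) • b i := by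
    have h3 : (N : ℝ) • p = ∑ i, ((N : ℝ) * b.repr p i) • b i := by
      conv_lhs => rw [← b.sum_repr p]
      rw [Finset.smul_sum]
      exact Finset.sum_congr rfl fun i _ => by rw [smul_smul]
    rw [h3, ← Finset.sum_add_distrib]
    refine Finset.sum_congr rfl fun i _ => ?_
    rw [← add_smul, add_sub_cancel, Int.cast_smul_eq_zsmul]
  have hfl : ∀ i, |(⌊(N : ℝ) * b.repr p i⌋ : ℝ) - N * b.repr p i| ≤ 1 := by
    intro i
    have h3 := Int.floor_le ((N : ℝ) * b.repr p i)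
    have h4 := Int.lt_floor_add_one ((N : ℝ) * b.repr p i)
    rw [abs_le]
    constructor <;> linarith
  have hsum : ∑ i, |(⌊(N : ℝ) * b.repr p i⌋ : ℝ) - N * b.repr p i| ≤ n := by
    refine (Finset.sum_le_sum fun i _ => hfl i).trans ?_
    simp
  -- points near `q` are in the cone
  have hnear : ∀ c : Fin n → ℝ, ∑ i, |c i| ≤ (n : ℝ) + 1 → q + ∑ i, c i • b i ∈ C := by
    intro c hc
    have h3 : q + ∑ i, c i • b i = (N : ℝ) • (p + ∑ i,
        (((⌊(N : ℝ) * b.repr p i⌋ : ℝ) - N * b.repr p i + c i) / N) • b i) := by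
      rw [hq, smul_add, Finset.smul_sum, add_assoc, ← Finset.sum_add_distrib]
      congr 1
      refine Finset.sum_congr rfl fun i _ => ?_
      rw [smul_smul, mul_div_cancel₀ _ hN0.ne', ← add_smul]
    rw [h3]
    refine hC.smul _ hN0.le _ (hcr _ ?_)
    refine le_trans ?_ hN1
    have h4 : ∀ i, |((⌊(N : ℝ) * b.repr p i⌋ : ℝ) - N * b.repr p i + c i) / N| ≤
        (|(⌊(N : ℝ) * b.repr p i⌋ : ℝ) - N * b.repr p i| + |c i|) / N := by
      intro i
      rw [abs_div, abs_of_pos hN0]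
      exact div_le_div_of_nonneg_right (abs_add_le _ _) hN0.le
    refine (Finset.sum_le_sum fun i _ => h4 i).trans ?_
    rw [← Finset.sum_div, Finset.sum_add_distrib]
    refine div_le_div_of_nonneg_right ?_ hN0.le
    linarith
  -- the generators
  let u : Option (Fin n × Bool) → V := fun o => match o with
    | none => q
    | some (i, true) => q + ((n : ℤ) + 1) • b i
    | some (i, false) => q - ((n : ℤ) + 1) • b i
  have huΛ : ∀ o, u o ∈ Λ := by
    have hqΛ : q ∈ Λ := Λ.sum_mem fun i _ => Λ.zsmul_mem (hb i) _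
    rintro (_ | ⟨i, _ | _⟩)
    · exact hqΛ
    · exact Λ.sub_mem hqΛ (Λ.zsmul_mem (hb i) _)
    · exact Λ.add_mem hqΛ (Λ.zsmul_mem (hb i) _)
  have hcast : ∀ i, ((n : ℤ) + 1) • b i = ((n : ℝ) + 1) • b i := by
    intro i
    rw [← Int.cast_smul_eq_zsmul ℝ]
    push_cast
    rfl
  have huC : ∀ o, u o ∈ C := by
    have hsg : ∀ (i : Fin n) (a : ℝ), |a| ≤ (n : ℝ) + 1 → q + a • b i ∈ C := by
      intro i a ha
      have h3 := hnear (Pi.single i a) (by
        rw [Finset.sum_eq_single i]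
        · simpa using ha
        · intro j _ hj; simp [hj]
        · intro h; exact absurd (Finset.mem_univ _) h)
      rwa [Finset.sum_eq_single i (fun j _ hj => by simp [hj])
        (fun h => absurd (Finset.mem_univ _) h), Pi.single_eq_same] at h3
    have hn1 : |(n : ℝ) + 1| ≤ (n : ℝ) + 1 := (abs_of_nonneg (by positivity)).le
    rintro (_ | ⟨i, _ | _⟩)
    · have h3 := hnear (fun _ => 0) (by simp; positivity)
      simpa using h3
    · change q - ((n : ℤ) + 1) • b i ∈ C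
      rw [hcast, sub_eq_add_neg, ← neg_smul]
      exact hsg i _ (by rwa [abs_neg])
    · change q + ((n : ℤ) + 1) • b i ∈ C
      rw [hcast]
      exact hsg i _ hn1
  let e := (Fintype.equivFin (Option (Fin n × Bool))).symm
  refine ⟨_, u ∘ e, fun i => huΛ _, fun i => huC _, ?_⟩
  rw [cn_equiv]
  intro v
  have hK := cn_cone u
  have hq0 : q ∈ cn u := gen_mem u none
  have hq1 : ∀ i, q + ((n : ℝ) + 1) • b i ∈ cn u := fun i => by
    rw [← hcast]; exact gen_mem u (some (i, true))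
  have hq2 : ∀ i, q - ((n : ℝ) + 1) • b i ∈ cn u := fun i => by
    rw [← hcast]; exact gen_mem u (some (i, false))
  obtain ⟨B, hB⟩ : ∃ B : ℝ, B = ∑ i, |b.repr v i| := ⟨_, rfl⟩
  have hB0 : 0 ≤ B := by rw [hB]; exact Finset.sum_nonneg fun i _ => abs_nonneg _
  refine ⟨1 / (N * (B + 1)), by positivity, ?_⟩
  have h3 : p + (1 / (N * (B + 1))) • v = (1 / (N : ℝ)) • (q + ∑ i,
      ((N : ℝ) * b.repr p i - ⌊(N : ℝ) * b.repr p i⌋ + b.repr v i / (B + 1)) • b i) := by
    have h4 : v = ∑ i, b.repr v i • b i := (b.sum_repr v).symm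
    have h5 : p = (1 / (N : ℝ)) • (q + ∑ i, ((N : ℝ) * b.repr p i - ⌊(N : ℝ) * b.repr p i⌋) •
        b i) := by
      rw [hq, add_assoc, ← Finset.sum_add_distrib]
      simp only [← add_smul]
      have h6 : ∀ i, ((⌊(N : ℝ) * b.repr p i⌋ : ℝ) - N * b.repr p i) +
          (N * b.repr p i - ⌊(N : ℝ) * b.repr p i⌋) = 0 := fun i => by ring
      simp only [h6, zero_smul, Finset.sum_const_zero, add_zero]
      rw [smul_smul, one_div, inv_mul_cancel₀ hN0.ne', one_smul]
    conv_lhs => rw [h5, h4]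
    simp only [add_smul, Finset.sum_add_distrib]
    rw [← add_assoc q, smul_add (1 / (N : ℝ)) (q + _)]
    congr 1
    rw [Finset.smul_sum, Finset.smul_sum]
    refine Finset.sum_congr rfl fun i _ => ?_
    rw [smul_smul, smul_smul]
    congr 1
    field_simp
  rw [h3]
  refine hK.smul _ (by positivity) _ (cross hK (r := (n : ℝ) + 1) (by positivity) hq0 hq1 hq2 _ ?_)
  have h4 : ∀ i, |(N : ℝ) * b.repr p i - ⌊(N : ℝ) * b.repr p i⌋ + b.repr v i / (B + 1)| ≤
      |(⌊(N : ℝ) * b.repr p i⌋ : ℝ) - N * b.repr p i| + |b.repr v i| / (B + 1) := by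
    intro i
    refine (abs_add_le _ _).trans ?_
    rw [abs_sub_comm, abs_div, abs_of_pos (show 0 < B + 1 by linarith)]
  refine (Finset.sum_le_sum fun i _ => h4 i).trans ?_
  rw [Finset.sum_add_distrib, ← Finset.sum_div, ← hB]
  have h5 : B / (B + 1) ≤ 1 := by
    rw [div_le_one (by linarith)]
    linarith
  linarith

end

end Pool.Agent.H899.LG
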